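import Mathlib

set_option autoImplicit false

namespace Pool.Agent.Run7.h312.SP

open SimpleGraph

variable {V : Type*} {G : SimpleGraph V}

lemma no_triangle (h : G.IsAcyclic) {x y z : V} (hxy : G.Adj x y) (hyz : G.Adj y z)
    (hzx : G.Adj z x) : False := by
  let p : G.Walk x y := Walk.cons hxy Walk.nil
  let q : G.Walk x y := Walk.cons hzx.symm (Walk.cons hyz.symm Walk.nil)
  have hp : p.IsPath := by
    simp [p, hxy.ne]
  have hq : q.IsPath := by
    simp [q, hzx.ne.symm, hyz.ne.symm, hxy.ne]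
  have h1 := h.path_unique ⟨p, hp⟩ ⟨q, hq⟩
  have h2 : p = q := congrArg Subtype.val h1
  have h3 := congrArg Walk.length h2
  simp [p, q] at h3

lemma no_square (h : G.IsAcyclic) {a b c d : V} (hab : G.Adj a b) (hbc : G.Adj b c)
    (hcd : G.Adj c d) (hda : G.Adj d a) (hac : a ≠ c) (hbd : b ≠ d) : False := by
  let p : G.Walk a c := Walk.cons hab (Walk.cons hbc Walk.nil)
  let q : G.Walk a c := Walk.cons hda.symm (Walk.cons hcd.symm Walk.nil)
  have hp : p.IsPath := by
    simp [p, hab.ne, hbc.ne, hac]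
  have hq : q.IsPath := by
    simp [q, hda.ne.symm, hcd.ne.symm, hac]
  have h1 := h.path_unique ⟨p, hp⟩ ⟨q, hq⟩
  have h2 : p = q := congrArg Subtype.val h1
  have h3 : p.getVert 1 = q.getVert 1 := by rw [h2]
  simp [p, q] at h3
  exact hbd h3

end Pool.Agent.Run7.h312.SP
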