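import Mathlib

set_option autoImplicit false

namespace Pool.Agent.Run7.h312.SP

open SimpleGraph

variable {V : Type*} {G : SimpleGraph V}

/-- a property which passes to neighbours holds everywhere -/
lemma closed (hc : G.Preconnected) (P : V → Prop) (hP : ∀ u w, G.Adj u w → P u → P w) {x : V}
    (hx : P x) (y : V) : P y := by
  obtain ⟨p⟩ := hc x y
  induction p with
  | nil => exact hx
  | cons h _ ih => exact ih (hP _ _ h hx)

/-- the distance is at least the difference of the levels -/
lemma lev_le_dist (hc : G.Connected) (f : V → ℕ) (hf : ∀ u w, G.Adj u w → f w ≤ f u + 1)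
    (x y : V) : f y ≤ f x + G.dist x y := by
  obtain ⟨p, hp⟩ := hc.exists_walk_length_eq_dist x y
  rw [← hp]
  clear hp
  induction p with
  | nil => simp
  | cons h p ih =>
    have h1 := hf _ _ h
    rw [Walk.length_cons]
    omega

end Pool.Agent.Run7.h312.SP
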